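import Pool.Agent.P8H64.PS.Bound

set_option autoImplicit false

/-!
# The Patterson-Sullivan intersection function on Outer space is at least 1 (MP_fee052_al, Q1)

Definitions: `busemann`, `gromov`, `critExp`, `IsPattersonSullivan`, `IsPSCurrent` are in
`Pool/Agent/P8H64/PS/Defs.lean`; `FTree`, `FTree.InCV`, `FTree.len` in
`Pool/Agent/H472R3/Defs.lean`; `Bd`, `Bd2` in `Pool/Agent/H67R3/FSR/Boundary.lean`; `Current`,
`eta` in `Pool/Agent/H67R3/FSR/Current.lean`; `IsIntersectionForm` in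
`Pool/Agent/H67R3/FSR/Assembly.lean`; `ray` in `Pool/Agent/H67R4/SR/Ends.lean`.

Proof. Fix a basis of `F = F_N` with word length `|.|` and base points `x` of `T` and `y` of `S`;
`L_T w = d(x, w x)`. For a current `μ` let `μ[w]` be the measure of the set of the lines which pass
through `1` and `w`, in this order, and `a_n(T, μ) = ∑_{|w| = n} μ[w] L_T w`.

1. (`bounded_cancellation`) `L_T u + L_T v - K ≤ L_T (uv) ≤ L_T u + L_T v` if `|uv| = |u| + |v|`.
2. (`Good`, `good_all`) `2 n ⟨T, μ⟩ ≤ a_n(T, μ) ≤ 2 n ⟨T, μ⟩ + 2 K μ(U)`, where `U` is the set of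
  the lines through `1`. This is seen for counting currents, by 1, and extends by continuity since
  the rational currents are dense: the numbers `μ[w]`, `|w| = n`, form a circulation on the
  graph with the edges `w` and the vertices `v`, `|v| = n - 1`, which is a sum of cycles.
3. (`ps_current_cyl`) `μ_T[w] ≤ C exp (- h_T L_T w)` for the Patterson-Sullivan current of `T`.
4. For `s > h_S`, as `t ≤ exp t`,
  `h_T a_n(T, μ_T) - s a_n(S, μ_T) = ∑ μ_T[w] (h_T L_T w - s L_S w)
    ≤ ∑ μ_T[w] exp (h_T L_T w) exp (- s L_S w) ≤ C ∑_{g ∈ F} exp (- s L_S g) < ∞`.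
  Divide by `2 n` and let `n → ∞`: `h_T = h_T ⟨T, μ_T⟩ ≤ s ⟨S, μ_T⟩`. So
  `h_T ≤ h_S ⟨S, μ_T⟩`, and `h_S ≤ h_T ⟨T, μ_S⟩` by symmetry.
-/

namespace Pool.Agent.Results.MP_fee052_al.LowerBound

open Pool.Agent.H472R3 Pool.Agent.H67R3.FSR Pool.Agent.P8H64.PS

/-- Let `N ≥ 2`, let `I = ⟨·,·⟩` be the intersection form, let `T` and `S` be points of the
unprojectivized Outer space `cv_N` (in particular they can be points of `cv_N^1`) and let `μT`, `μS`
be their Patterson-Sullivan currents, scaled so that `⟨T, μT⟩ = 1` and `⟨S, μS⟩ = 1`. Then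
`⟨S, μT⟩ ⟨T, μS⟩ ≥ 1`. Moreover `⟨S, μT⟩ ≥ h_T / h_S`. -/
theorem result (N : ℕ) (hN : 2 ≤ N) (I : FTree N → Current N → ℝ) (hI : IsIntersectionForm I)
    (T S : FTree N) (hT : T.InCV) (hS : S.InCV) (μT μS : Current N)
    (h1 : IsPSCurrent T μT) (h2 : IsPSCurrent S μS) (h3 : I T μT = 1) (h4 : I S μS = 1) :
    1 ≤ I S μT * I T μS ∧ 0 < critExp T ∧ 0 < critExp S ∧ critExp T / critExp S ≤ I S μT := by
  have hTp := critExp_pos hN hT
  have hSp := critExp_pos hN hS
  have e1 := crit_le hN hI hT hS h1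
  have e2 := crit_le hN hI hS hT h2
  rw [h3, mul_one] at e1
  rw [h4, mul_one] at e2
  refine ⟨?_, hTp, hSp, ?_⟩
  · have h5 : 0 ≤ I S μT := by
      by_contra hc
      have := mul_neg_of_pos_of_neg hSp (not_le.mp hc)
      linarith
    have h6 : critExp T * critExp S ≤
        (critExp S * I S μT) * (critExp T * I T μS) :=
      mul_le_mul e1 e2 hSp.le (mul_nonneg hSp.le h5)
    have h7 : (critExp T * critExp S) * 1 ≤ (critExp T * critExp S) * (I S μT * I T μS) := by
      linarith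
    exact le_of_mul_le_mul_left h7 (mul_pos hTp hSp)
  · rw [div_le_iff₀ hSp, mul_comm]
    exact e1

end Pool.Agent.Results.MP_fee052_al.LowerBound
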